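import Mathlib

namespace Pool.Agent.Results.MP_d61c7e_al.OnePolynomial

open Polynomial

/-! ### Digits -/

theorem digits_unique (B : ℕ) : ∀ (m : ℕ) (a b : Fin m → ℕ), (∀ i, a i < B) → (∀ i, b i < B) →
    (∑ i : Fin m, B ^ (i : ℕ) * a i = ∑ i : Fin m, B ^ (i : ℕ) * b i) → a = b := by
  intro m
  induction m with
  | zero => intro a b _ _ _; exact Subsingleton.elim _ _
  | succ m ih =>
    intro a b ha hb h
    have e1 : ∀ c : Fin (m + 1) → ℕ, ∑ i : Fin (m + 1), B ^ (i : ℕ) * c i =
        c 0 + B * ∑ i : Fin m, B ^ (i : ℕ) * c i.succ := by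
      intro c
      rw [Fin.sum_univ_succ, Finset.mul_sum]
      congr 1
      · simp
      · apply Finset.sum_congr rfl
        intro i _
        rw [Fin.val_succ, pow_succ]
        ring
    rw [e1 a, e1 b] at h
    have h0 : a 0 = b 0 := by
      have h2 := congrArg (fun z => z % B) h
      simp only [Nat.add_mul_mod_self_left] at h2
      rwa [Nat.mod_eq_of_lt (ha 0), Nat.mod_eq_of_lt (hb 0)] at h2
    have hBpos : 0 < B := lt_of_le_of_lt (Nat.zero_le _) (ha 0)
    have h3 : ∑ i : Fin m, B ^ (i : ℕ) * a i.succ = ∑ i : Fin m, B ^ (i : ℕ) * b i.succ := by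
      rw [h0] at h
      exact Nat.eq_of_mul_eq_mul_left hBpos (Nat.add_left_cancel h)
    have h4 := ih (fun i => a i.succ) (fun i => b i.succ) (fun i => ha _) (fun i => hb _) h3
    funext i
    refine Fin.cases h0 (fun j => ?_) i
    exact congrFun h4 j

/-! ### Root multiplicities -/

section core

variable {L : Type*} [Field L]

theorem rootMult_prod {ι : Type*} [Fintype ι] (F : ι → L[X]) (w : ι → ℕ) (hF : ∀ x, F x ≠ 0)
    (t : L) : rootMultiplicity t (∏ x, (F x) ^ (w x)) = ∑ x, w x * rootMultiplicity t (F x) := by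
  classical
  rw [← count_roots, roots_prod, Multiset.count_bind]
  · simp only [roots_pow, Multiset.count_nsmul, count_roots]
    rfl
  · exact Finset.prod_ne_zero_iff.2 (fun x _ => pow_ne_zero _ (hF x))

/-- points where the derivative has a zero of multiplicity at least `M` -/
noncomputable def bad (M : ℕ) (q : L[X]) : Finset L := by
  classical
  exact (derivative q).roots.toFinset.filter (fun t => M ≤ rootMultiplicity t (derivative q))

theorem bad_card (M : ℕ) (q : L[X]) : (bad M q).card * M ≤ q.natDegree - 1 := by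
  classical
  calc (bad M q).card * M = ∑ t ∈ bad M q, M := by simp
    _ ≤ ∑ t ∈ bad M q, (derivative q).roots.count t := by
        apply Finset.sum_le_sum
        intro t ht
        rw [count_roots]
        unfold bad at ht
        exact (Finset.mem_filter.1 ht).2
    _ ≤ ∑ t ∈ (derivative q).roots.toFinset, (derivative q).roots.count t := by
        apply Finset.sum_le_sum_of_subset
        unfold bad
        exact Finset.filter_subset _ _
    _ = (derivative q).roots.card := Multiset.toFinset_sum_count_eq _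
    _ ≤ (derivative q).natDegree := card_roots' _
    _ ≤ q.natDegree - 1 := natDegree_derivative_le q

theorem not_bad {M : ℕ} (hM : 0 < M) {q : L[X]} {t : L} (h : t ∉ bad M q) :
    rootMultiplicity t (derivative q) < M := by
  classical
  by_contra hc
  push Not at hc
  apply h
  unfold bad
  rw [Finset.mem_filter, Multiset.mem_toFinset]
  refine ⟨?_, hc⟩
  rw [← Multiset.count_pos, count_roots]
  omega

theorem mult_le [CharZero L] (q : L[X]) (s : L) (t : L) :
    rootMultiplicity t (q + C s) ≤ rootMultiplicity t (derivative q) + 1 := by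
  have h := rootMultiplicity_sub_one_le_derivative_rootMultiplicity (q + C s) t
  simp only [derivative_add, derivative_C, add_zero] at h
  omega

/-- the set of points where `h` takes one of the values `-1, -2, -3` -/
noncomputable def zset (h : L[X]) : Finset L := by
  classical
  exact Finset.univ.biUnion (fun σ : Fin 3 => (h + C (((σ : ℕ) : L) + 1)).roots.toFinset)

theorem natDegree_shift (h : L[X]) (s : L) : (h + C s).natDegree = h.natDegree :=
  natDegree_add_C

theorem shift_ne_zero (h : L[X]) (s : L) (hh : 0 < h.natDegree) : h + C s ≠ 0 := by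
  intro h0
  have := natDegree_shift h s
  rw [h0, natDegree_zero] at this
  omega

theorem zset_card [IsAlgClosed L] [CharZero L] (h : L[X]) (hh : 0 < h.natDegree) :
    2 * h.natDegree + 1 ≤ (zset h).card := by
  classical
  have hdisj : ((Finset.univ : Finset (Fin 3)) : Set (Fin 3)).PairwiseDisjoint
      (fun σ : Fin 3 => (h + C (((σ : ℕ) : L) + 1)).roots.toFinset) := by
    intro σ _ τ _ hst
    simp only [Function.onFun]
    rw [Finset.disjoint_left]
    intro t ht ht'
    rw [Multiset.mem_toFinset, mem_roots (shift_ne_zero h _ hh), IsRoot.def, eval_add, eval_C]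
      at ht ht'
    apply hst
    have : ((σ : ℕ) : L) = ((τ : ℕ) : L) := by linear_combination ht - ht'
    exact Fin.ext (Nat.cast_injective this)
  have e1 : ∑ σ : Fin 3, ∑ t ∈ (h + C (((σ : ℕ) : L) + 1)).roots.toFinset,
      (h + C (((σ : ℕ) : L) + 1)).roots.count t = 3 * h.natDegree := by
    simp only [Multiset.toFinset_sum_count_eq, IsAlgClosed.card_roots_eq_natDegree,
      natDegree_shift]
    simp
  have e2 : ∑ σ : Fin 3, ∑ t ∈ (h + C (((σ : ℕ) : L) + 1)).roots.toFinset,
      (h + C (((σ : ℕ) : L) + 1)).roots.count t ≤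
      ∑ σ : Fin 3, ∑ t ∈ (h + C (((σ : ℕ) : L) + 1)).roots.toFinset,
        (rootMultiplicity t (derivative h) + 1) := by
    apply Finset.sum_le_sum
    intro σ _
    apply Finset.sum_le_sum
    intro t _
    rw [count_roots]
    exact mult_le h _ t
  have e3 : ∑ t ∈ zset h, (rootMultiplicity t (derivative h) + 1) =
      ∑ σ : Fin 3, ∑ t ∈ (h + C (((σ : ℕ) : L) + 1)).roots.toFinset,
        (rootMultiplicity t (derivative h) + 1) := by
    unfold zset
    exact Finset.sum_biUnion hdisj
  have e4 : ∑ t ∈ zset h, rootMultiplicity t (derivative h) ≤ h.natDegree - 1 := by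
    calc ∑ t ∈ zset h, rootMultiplicity t (derivative h)
        = ∑ t ∈ zset h, (derivative h).roots.count t := by
          apply Finset.sum_congr rfl; intro t _; rw [count_roots]
      _ ≤ (derivative h).roots.card := by
          rw [← Multiset.toFinset_sum_count_eq]
          have : ∑ t ∈ zset h, (derivative h).roots.count t =
              ∑ t ∈ zset h ∩ (derivative h).roots.toFinset, (derivative h).roots.count t := by
            symm
            apply Finset.sum_subset Finset.inter_subset_left
            intro t ht ht'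
            rw [Multiset.count_eq_zero]
            intro hc
            exact ht' (Finset.mem_inter.2 ⟨ht, Multiset.mem_toFinset.2 hc⟩)
          rw [this]
          exact Finset.sum_le_sum_of_subset Finset.inter_subset_right
      _ ≤ (derivative h).natDegree := card_roots' _
      _ ≤ h.natDegree - 1 := natDegree_derivative_le h
  rw [Finset.sum_add_distrib] at e3
  simp only [Finset.sum_const, smul_eq_mul, mul_one] at e3
  omega

/-- **Main lemma.** -/
theorem lemmaA [IsAlgClosed L] [CharZero L] {κ : Type*} [Fintype κ] [Nonempty κ] {m : ℕ}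
    (idx : κ × Fin 3 ≃ Fin m) (Q R : κ → L[X]) (H : ℕ)
    (hQ : ∀ k, (Q k).natDegree ≤ H) (hR : ∀ k, (R k).natDegree ≤ H)
    (hQ0 : ∀ x : κ × Fin 3, Q x.1 + C (((x.2 : ℕ) : L) + 1) ≠ 0)
    (hR0 : ∀ x : κ × Fin 3, R x.1 + C (((x.2 : ℕ) : L) + 1) ≠ 0)
    (hprod : ∏ x : κ × Fin 3, (Q x.1 + C (((x.2 : ℕ) : L) + 1)) ^
        ((2 * Fintype.card κ + 1) ^ ((idx x : Fin m) : ℕ)) =
      ∏ x : κ × Fin 3, (R x.1 + C (((x.2 : ℕ) : L) + 1)) ^
        ((2 * Fintype.card κ + 1) ^ ((idx x : Fin m) : ℕ)))
    (k0 : κ) (hk0 : (Q k0).natDegree = H) (hH : 0 < H) : Q k0 = R k0 := by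
  classical
  set N := Fintype.card κ with hN
  have hNpos : 0 < N := Fintype.card_pos
  set Bd : Finset L := Finset.univ.biUnion (fun k : κ => bad (2 * N) (Q k) ∪ bad (2 * N) (R k))
    with hBd
  have hBdcard : Bd.card ≤ H - 1 := by
    have h1 : Bd.card ≤ ∑ k : κ, ((bad (2 * N) (Q k)).card + (bad (2 * N) (R k)).card) := by
      refine le_trans Finset.card_biUnion_le ?_
      apply Finset.sum_le_sum
      intro k _
      exact Finset.card_union_le _ _
    have h2 : Bd.card * (2 * N) ≤ (H - 1) * (2 * N) := by
      calc Bd.card * (2 * N)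
          ≤ (∑ k : κ, ((bad (2 * N) (Q k)).card + (bad (2 * N) (R k)).card)) * (2 * N) :=
            Nat.mul_le_mul_right _ h1
        _ = ∑ k : κ, ((bad (2 * N) (Q k)).card * (2 * N) +
              (bad (2 * N) (R k)).card * (2 * N)) := by
            rw [Finset.sum_mul]
            apply Finset.sum_congr rfl; intro k _; ring
        _ ≤ ∑ k : κ, ((H - 1) + (H - 1)) := by
            apply Finset.sum_le_sum
            intro k _
            have a1 := bad_card (2 * N) (Q k)
            have a2 := bad_card (2 * N) (R k)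
            have a3 := hQ k
            have a4 := hR k
            omega
        _ = (H - 1) * (2 * N) := by
            rw [Finset.sum_const, Finset.card_univ, smul_eq_mul, ← hN]
            ring
    exact Nat.le_of_mul_le_mul_right h2 (by omega)
  -- outside the bad set, all multiplicities coincide
  have key : ∀ t, t ∉ Bd → ∀ x : κ × Fin 3,
      rootMultiplicity t (Q x.1 + C (((x.2 : ℕ) : L) + 1)) =
      rootMultiplicity t (R x.1 + C (((x.2 : ℕ) : L) + 1)) := by
    intro t ht
    have hnb : ∀ k, t ∉ bad (2 * N) (Q k) ∧ t ∉ bad (2 * N) (R k) := by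
      intro k
      constructor
      · intro hc
        exact ht (Finset.mem_biUnion.2 ⟨k, Finset.mem_univ _, Finset.mem_union_left _ hc⟩)
      · intro hc
        exact ht (Finset.mem_biUnion.2 ⟨k, Finset.mem_univ _, Finset.mem_union_right _ hc⟩)
    have h1 := congrArg (rootMultiplicity t) hprod
    rw [rootMult_prod _ _ hQ0 t, rootMult_prod _ _ hR0 t] at h1
    have h2 := digits_unique (2 * N + 1) m
      (fun i => rootMultiplicity t (Q (idx.symm i).1 + C ((((idx.symm i).2 : ℕ) : L) + 1)))
      (fun i => rootMultiplicity t (R (idx.symm i).1 + C ((((idx.symm i).2 : ℕ) : L) + 1)))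
      (fun i => by
        have a1 := mult_le (Q (idx.symm i).1) ((((idx.symm i).2 : ℕ) : L) + 1) t
        have a2 := not_bad (by omega) (hnb (idx.symm i).1).1
        show rootMultiplicity t _ < _
        omega)
      (fun i => by
        have a1 := mult_le (R (idx.symm i).1) ((((idx.symm i).2 : ℕ) : L) + 1) t
        have a2 := not_bad (by omega) (hnb (idx.symm i).1).2
        show rootMultiplicity t _ < _
        omega)
      (by
        rw [← Equiv.sum_comp idx, ← Equiv.sum_comp idx]
        simpa using h1)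
    intro x
    have h3 := congrFun h2 (idx x)
    simpa using h3
  -- conclusion
  have hz := zset_card (Q k0) (by omega)
  have hcard : H < (zset (Q k0) \ Bd).card := by
    have := Finset.le_card_sdiff Bd (zset (Q k0))
    omega
  apply eq_of_natDegree_lt_card_of_eval_eq' (Q k0) (R k0) (zset (Q k0) \ Bd)
  · intro t ht
    rw [Finset.mem_sdiff] at ht
    obtain ⟨htz, htb⟩ := ht
    unfold zset at htz
    rw [Finset.mem_biUnion] at htz
    obtain ⟨σ, _, hσ⟩ := htz
    have hk := key t htb (k0, σ)
    have hr1 : rootMultiplicity t (Q k0 + C (((σ : ℕ) : L) + 1)) ≠ 0 := by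
      rw [Multiset.mem_toFinset, ← Multiset.count_pos, count_roots] at hσ
      omega
    have hr2 : 0 < rootMultiplicity t (R k0 + C (((σ : ℕ) : L) + 1)) := by
      simp only at hk
      omega
    rw [rootMultiplicity_pos (hR0 (k0, σ)), IsRoot.def, eval_add, eval_C] at hr2
    rw [Multiset.mem_toFinset, mem_roots (hQ0 (k0, σ)), IsRoot.def, eval_add, eval_C] at hσ
    linear_combination hσ - hr2
  · have a3 := hQ k0
    have a4 := hR k0
    omega

end core

/-! ### The polynomial -/

/-- `∑ c ^ i f_i` -/
def ell {A : Type*} [CommRing A] (n c : ℕ) (f : Fin n → A) : A :=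
  ∑ i : Fin n, ((c ^ (i : ℕ) : ℕ) : A) * f i

/-- `∏_j (ell (b n + j) + [s = j])` -/
def qq {A : Type*} [CommRing A] (n : ℕ) (b : Fin n) (s : Option (Fin n)) (f : Fin n → A) : A :=
  ∏ j : Fin n, (ell n ((b : ℕ) * n + j) f + (if s = some j then 1 else 0))

/-- numbering of the factors -/
noncomputable def idx (n : ℕ) : (Fin n × Option (Fin n)) × Fin 3 ≃
    Fin (Fintype.card ((Fin n × Option (Fin n)) × Fin 3)) := Fintype.equivFin _

/-- the polynomial -/
noncomputable def WW {A : Type*} [CommRing A] (n : ℕ) (f : Fin n → A) : A :=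
  ∏ x : (Fin n × Option (Fin n)) × Fin 3, (qq n x.1.1 x.1.2 f + (((x.2 : ℕ) : A) + 1)) ^
    ((2 * Fintype.card (Fin n × Option (Fin n)) + 1) ^ ((idx n x) : ℕ))

theorem map_ell {A B : Type*} [CommRing A] [CommRing B] (φ : A →+* B) (n c : ℕ) (f : Fin n → A) :
    φ (ell n c f) = ell n c (fun i => φ (f i)) := by
  unfold ell
  rw [map_sum]
  apply Finset.sum_congr rfl
  intro i _
  rw [map_mul, map_natCast]

theorem map_qq {A B : Type*} [CommRing A] [CommRing B] (φ : A →+* B) (n : ℕ) (b : Fin n)
    (s : Option (Fin n)) (f : Fin n → A) :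
    φ (qq n b s f) = qq n b s (fun i => φ (f i)) := by
  unfold qq
  rw [map_prod]
  apply Finset.prod_congr rfl
  intro j _
  rw [map_add, map_ell]
  split_ifs
  · rw [map_one]
  · rw [map_zero]

theorem map_WW {A B : Type*} [CommRing A] [CommRing B] (φ : A →+* B) (n : ℕ) (f : Fin n → A) :
    φ (WW n f) = WW n (fun i => φ (f i)) := by
  unfold WW
  rw [map_prod]
  apply Finset.prod_congr rfl
  intro x _
  rw [map_pow, map_add, map_qq, map_add, map_natCast, map_one]

section core2

variable {L : Type*} [Field L]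

theorem ell_natDegree_le {n : ℕ} (c : ℕ) (f : Fin n → L[X]) (δ : ℕ)
    (hf : ∀ i, (f i).natDegree ≤ δ) : (ell n c f).natDegree ≤ δ := by
  unfold ell
  apply natDegree_sum_le_of_forall_le
  intro i _
  refine le_trans natDegree_mul_le ?_
  rw [natDegree_natCast, zero_add]
  exact hf i

theorem ell_coeff {n : ℕ} (c : ℕ) (f : Fin n → L[X]) (δ : ℕ) :
    (ell n c f).coeff δ = ∑ i : Fin n, ((c : ℕ) : L) ^ (i : ℕ) * (f i).coeff δ := by
  unfold ell
  rw [finsetSum_coeff]
  apply Finset.sum_congr rfl
  intro i _
  rw [← C_eq_natCast, coeff_C_mul]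
  push_cast
  rfl

theorem e_eq (p : Prop) [Decidable p] : (if p then (1 : L[X]) else 0) =
    C (if p then (1 : L) else 0) := by
  split_ifs
  · rw [C_1]
  · rw [C_0]

theorem qq_natDegree_le {n : ℕ} (b : Fin n) (s : Option (Fin n)) (f : Fin n → L[X]) (δ : ℕ)
    (hf : ∀ i, (f i).natDegree ≤ δ) : (qq n b s f).natDegree ≤ n * δ := by
  unfold qq
  refine le_trans (natDegree_prod_le _ _) ?_
  calc _ ≤ ∑ j : Fin n, δ := by
        apply Finset.sum_le_sum
        intro j _
        show (ell n ((b : ℕ) * n + j) f + (if s = some j then 1 else 0)).natDegree ≤ δ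
        rw [e_eq, natDegree_add_C]
        exact ell_natDegree_le _ _ _ hf
    _ = n * δ := by simp

theorem cast_inj [CharZero L] (n : ℕ) (b : Fin n) :
    Function.Injective (fun j : Fin n => (((b : ℕ) * n + j : ℕ) : L)) := by
  intro i j h
  have h1 : (b : ℕ) * n + i = (b : ℕ) * n + j := Nat.cast_injective h
  exact Fin.ext (Nat.add_left_cancel h1)

theorem core [IsAlgClosed L] [CharZero L] (n : ℕ) (f g : Fin n → L[X]) (δ : ℕ) (hδ : 0 < δ)
    (hf : ∀ i, (f i).natDegree ≤ δ) (hg : ∀ i, (g i).natDegree ≤ δ) (i0 : Fin n)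
    (hi0 : (f i0).natDegree = δ) (h : WW n f = WW n g) : f = g := by
  classical
  have hn : 0 < n := lt_of_le_of_lt (Nat.zero_le _) i0.2
  have : Nonempty (Fin n × Option (Fin n)) := ⟨(i0, none)⟩
  -- the leading coefficients are not all zero
  have hlead : ∀ v : Fin n → L, Function.Injective v →
      ∃ j, ∑ i : Fin n, v j ^ (i : ℕ) * (f i).coeff δ ≠ 0 := by
    intro v hv
    by_contra hc
    push Not at hc
    have h0 := Matrix.eq_zero_of_forall_index_sum_pow_mul_eq_zero hv hc
    have h1 : (f i0).coeff δ = 0 := congrFun h0 i0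
    rw [← hi0, coeff_natDegree, leadingCoeff_eq_zero] at h1
    rw [h1, natDegree_zero] at hi0
    omega
  -- nonvanishing
  have hC : ∀ σ : Fin 3, (((σ : ℕ) : L[X]) + 1) = C (((σ : ℕ) : L) + 1) := by
    intro σ
    rw [C_add, C_1, C_eq_natCast]
  have hQ0 : ∀ x : (Fin n × Option (Fin n)) × Fin 3,
      qq n x.1.1 x.1.2 f + C (((x.2 : ℕ) : L) + 1) ≠ 0 := by
    rintro ⟨⟨b, s⟩, σ⟩ h0
    simp only at h0
    have hne : (((σ : ℕ) : L) + 1) ≠ 0 := by
      have : (((σ : ℕ) + 1 : ℕ) : L) ≠ 0 := Nat.cast_ne_zero.2 (by omega)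
      simpa using this
    have hq : qq n b s f = C (-(((σ : ℕ) : L) + 1)) := by
      rw [C_neg]
      exact eq_neg_of_add_eq_zero_left h0
    have hqne : qq n b s f ≠ 0 := by
      rw [hq]
      exact C_ne_zero.2 (neg_ne_zero.2 hne)
    have hdeg : (qq n b s f).natDegree = 0 := by rw [hq, natDegree_C]
    unfold qq at hqne hdeg
    rw [Finset.prod_ne_zero_iff] at hqne
    rw [natDegree_prod _ _ hqne, Finset.sum_eq_zero_iff] at hdeg
    obtain ⟨j, hj⟩ := hlead (fun j : Fin n => (((b : ℕ) * n + j : ℕ) : L)) (cast_inj n b)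
    apply hj
    rw [← ell_coeff]
    have h2 := hdeg j (Finset.mem_univ _)
    rw [e_eq, natDegree_add_C] at h2
    exact coeff_eq_zero_of_natDegree_lt (by omega)
  have hW : ∀ f : Fin n → L[X], WW n f =
      ∏ x : (Fin n × Option (Fin n)) × Fin 3, (qq n x.1.1 x.1.2 f +
        C (((x.2 : ℕ) : L) + 1)) ^
        ((2 * Fintype.card (Fin n × Option (Fin n)) + 1) ^ ((idx n x) : ℕ)) := by
    intro f
    unfold WW
    apply Finset.prod_congr rfl
    intro x _
    rw [hC]
  rw [hW, hW] at h
  have hR0 : ∀ x : (Fin n × Option (Fin n)) × Fin 3,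
      qq n x.1.1 x.1.2 g + C (((x.2 : ℕ) : L) + 1) ≠ 0 := by
    have h1 : ∏ x : (Fin n × Option (Fin n)) × Fin 3, (qq n x.1.1 x.1.2 g +
        C (((x.2 : ℕ) : L) + 1)) ^
        ((2 * Fintype.card (Fin n × Option (Fin n)) + 1) ^ ((idx n x) : ℕ)) ≠ 0 := by
      rw [← h, Finset.prod_ne_zero_iff]
      intro x _
      exact pow_ne_zero _ (hQ0 x)
    intro x h0
    rw [Finset.prod_ne_zero_iff] at h1
    apply h1 x (Finset.mem_univ _)
    rw [h0]
    exact zero_pow (by positivity)
  -- a good block
  obtain ⟨b, hb⟩ : ∃ b : Fin n, ∀ j : Fin n, (ell n ((b : ℕ) * n + j) f).coeff δ ≠ 0 := by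
    by_contra hc
    push Not at hc
    choose jj hjj using hc
    have hinj : Function.Injective (fun b : Fin n => (((b : ℕ) * n + jj b : ℕ) : L)) := by
      intro b b' hbb
      have h1 : (b : ℕ) * n + jj b = (b' : ℕ) * n + jj b' := Nat.cast_injective hbb
      have h2 : ((b : ℕ) * n + jj b) / n = ((b' : ℕ) * n + jj b') / n := by rw [h1]
      have h3 : ∀ c : Fin n, ((c : ℕ) * n + jj c) / n = c := by
        intro c
        rw [mul_comm, Nat.mul_add_div hn, Nat.div_eq_of_lt (jj c).2, add_zero]
      rw [h3, h3] at h2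
      exact Fin.ext h2
    obtain ⟨b, hb⟩ := hlead _ hinj
    apply hb
    rw [← ell_coeff]
    exact hjj b
  have hdegU : ∀ j : Fin n, (ell n ((b : ℕ) * n + j) f).natDegree = δ := by
    intro j
    exact natDegree_eq_of_le_of_coeff_ne_zero (ell_natDegree_le _ _ _ hf) (hb j)
  have hqdeg : ∀ s, (qq n b s f).natDegree = n * δ := by
    intro s
    unfold qq
    rw [natDegree_prod]
    · calc _ = ∑ j : Fin n, δ := by
            apply Finset.sum_congr rfl
            intro j _
            rw [e_eq, natDegree_add_C]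
            exact hdegU j
        _ = n * δ := by simp
    · intro j _
      rw [e_eq]
      apply shift_ne_zero
      rw [hdegU j]
      exact hδ
  have hqeq : ∀ s, qq n b s f = qq n b s g := by
    intro s
    exact lemmaA (idx n) (fun k => qq n k.1 k.2 f) (fun k => qq n k.1 k.2 g) (n * δ)
      (fun k => qq_natDegree_le _ _ _ _ hf) (fun k => qq_natDegree_le _ _ _ _ hg) hQ0 hR0 h
      (b, s) (hqdeg s) (Nat.mul_pos hn hδ)
  have hell : ∀ j : Fin n, ell n ((b : ℕ) * n + j) f = ell n ((b : ℕ) * n + j) g := by
    intro j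
    have h1 := hqeq none
    have h2 := hqeq (some j)
    unfold qq at h1 h2
    rw [← Finset.mul_prod_erase _ _ (Finset.mem_univ j),
      ← Finset.mul_prod_erase _ _ (Finset.mem_univ j)] at h1 h2
    have e1 : ∀ f : Fin n → L[X], ∏ i ∈ Finset.univ.erase j, (ell n ((b : ℕ) * n + i) f +
        (if some j = some i then (1 : L[X]) else 0)) =
        ∏ i ∈ Finset.univ.erase j, ell n ((b : ℕ) * n + i) f := by
      intro f
      apply Finset.prod_congr rfl
      intro i hi
      rw [if_neg, add_zero]
      intro hc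
      exact (Finset.mem_erase.1 hi).1 (Option.some.inj hc).symm
    have e2 : ∀ f : Fin n → L[X], ∏ i ∈ Finset.univ.erase j, (ell n ((b : ℕ) * n + i) f +
        (if (none : Option (Fin n)) = some i then (1 : L[X]) else 0)) =
        ∏ i ∈ Finset.univ.erase j, ell n ((b : ℕ) * n + i) f := by
      intro f
      apply Finset.prod_congr rfl
      intro i hi
      rw [if_neg (by simp), add_zero]
    rw [e2, e2, if_neg (by simp), add_zero, add_zero] at h1
    rw [e1, e1, if_pos rfl] at h2
    have h3 : ∏ i ∈ Finset.univ.erase j, ell n ((b : ℕ) * n + i) f =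
        ∏ i ∈ Finset.univ.erase j, ell n ((b : ℕ) * n + i) g := by
      linear_combination h2 - h1
    have h4 : ∏ i ∈ Finset.univ.erase j, ell n ((b : ℕ) * n + i) f ≠ 0 := by
      rw [Finset.prod_ne_zero_iff]
      intro i _ h0
      have := hdegU i
      rw [h0, natDegree_zero] at this
      omega
    rw [← h3] at h1
    exact mul_right_cancel₀ h4 h1
  have hinj : Function.Injective (fun j : Fin n => (((b : ℕ) * n + j : ℕ) : L[X])) := by
    intro i j h
    have h1 : (b : ℕ) * n + i = (b : ℕ) * n + j := Nat.cast_injective h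
    exact Fin.ext (Nat.add_left_cancel h1)
  have hfin := Matrix.eq_zero_of_forall_index_sum_pow_mul_eq_zero (v := fun i => f i - g i)
    hinj (by
      intro j
      have h1 := hell j
      unfold ell at h1
      rw [← sub_eq_zero, ← Finset.sum_sub_distrib] at h1
      rw [← h1]
      apply Finset.sum_congr rfl
      intro i _
      rw [Nat.cast_pow]
      ring)
  funext i
  exact sub_eq_zero.1 (congrFun hfin i)

end core2

/-! ### Reduction to one variable -/

/-- restriction to the line through `a` and `c` -/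
noncomputable def line {K : Type*} [Field K] (n : ℕ) (a c : Fin n → K) :
    MvPolynomial (Fin n) K →+* (AlgebraicClosure K)[X] :=
  (MvPolynomial.aeval (R := K) (fun i : Fin n => (Polynomial.C (algebraMap K (AlgebraicClosure K) (a i)) +
    Polynomial.C (algebraMap K (AlgebraicClosure K) (c i - a i)) *
      (Polynomial.X : (AlgebraicClosure K)[X])))).toRingHom

theorem line_zero {K : Type*} [Field K] (n : ℕ) (a c : Fin n → K) (q : MvPolynomial (Fin n) K) :
    Polynomial.eval 0 (line n a c q) =
      algebraMap K (AlgebraicClosure K) (MvPolynomial.eval a q) := by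
  have : (Polynomial.evalRingHom (0 : AlgebraicClosure K)).comp (line n a c) =
      (algebraMap K (AlgebraicClosure K)).comp (MvPolynomial.eval a) := by
    apply MvPolynomial.ringHom_ext
    · intro r
      simp [line, Polynomial.algebraMap_apply]
    · intro i
      simp [line]
  exact congrFun (congrArg DFunLike.coe this) q

theorem line_one {K : Type*} [Field K] (n : ℕ) (a c : Fin n → K) (q : MvPolynomial (Fin n) K) :
    Polynomial.eval 1 (line n a c q) =
      algebraMap K (AlgebraicClosure K) (MvPolynomial.eval c q) := by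
  have : (Polynomial.evalRingHom (1 : AlgebraicClosure K)).comp (line n a c) =
      (algebraMap K (AlgebraicClosure K)).comp (MvPolynomial.eval c) := by
    apply MvPolynomial.ringHom_ext
    · intro r
      simp [line, Polynomial.algebraMap_apply]
    · intro i
      simp [line]
  exact congrFun (congrArg DFunLike.coe this) q

/-- For every field `K` of characteristic `0` and every `n` there is a polynomial
`p ∈ K[x_1, …, x_n]` such that `φ p = ψ p` forces `φ = ψ` for all `K`-algebra endomorphisms
`φ, ψ` of `K[x_1, …, x_n]` of which (at least) `φ` is non-degenerate, i.e. has a non-constant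
polynomial in its image. -/
theorem result (n : ℕ) (K : Type*) [Field K] [CharZero K] :
    ∃ p : MvPolynomial (Fin n) K,
      ∀ φ ψ : MvPolynomial (Fin n) K →ₐ[K] MvPolynomial (Fin n) K,
        (∃ q : MvPolynomial (Fin n) K, ∀ c : K, φ q ≠ MvPolynomial.C c) →
          φ p = ψ p → φ = ψ := by
  classical
  refine ⟨WW n (fun i => MvPolynomial.X i), ?_⟩
  intro φ ψ hnd h
  by_contra hne
  obtain ⟨i, hi⟩ : ∃ i, φ (MvPolynomial.X i) ≠ ψ (MvPolynomial.X i) := by
    by_contra hc
    push Not at hc
    exact hne (MvPolynomial.algHom_ext hc)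
  obtain ⟨a, ha⟩ : ∃ a, MvPolynomial.eval a (φ (MvPolynomial.X i)) ≠
      MvPolynomial.eval a (ψ (MvPolynomial.X i)) := by
    by_contra hc
    push Not at hc
    exact hi (MvPolynomial.funext hc)
  obtain ⟨j, hj⟩ : ∃ j, ∀ c : K, φ (MvPolynomial.X j) ≠ MvPolynomial.C c := by
    by_contra hc
    push Not at hc
    choose cc hcc using hc
    obtain ⟨q, hq⟩ := hnd
    apply hq (MvPolynomial.eval cc q)
    have : φ = (Algebra.ofId K (MvPolynomial (Fin n) K)).comp
        (MvPolynomial.aeval cc : MvPolynomial (Fin n) K →ₐ[K] K) := by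
      apply MvPolynomial.algHom_ext
      intro j
      rw [hcc j]
      simp [Algebra.ofId_apply, MvPolynomial.algebraMap_eq]
    conv_lhs => rw [this]
    simp only [AlgHom.comp_apply, Algebra.ofId_apply, MvPolynomial.algebraMap_eq]
    rw [MvPolynomial.aeval_eq_eval]
  obtain ⟨c, hc⟩ : ∃ c, MvPolynomial.eval c (φ (MvPolynomial.X j)) ≠
      MvPolynomial.eval a (φ (MvPolynomial.X j)) := by
    by_contra hc
    push Not at hc
    apply hj (MvPolynomial.eval a (φ (MvPolynomial.X j)))
    apply MvPolynomial.funext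
    intro x
    rw [hc x, MvPolynomial.eval_C]
  set F : Fin n → (AlgebraicClosure K)[X] := fun i => line n a c (φ (MvPolynomial.X i)) with hF
  set G : Fin n → (AlgebraicClosure K)[X] := fun i => line n a c (ψ (MvPolynomial.X i)) with hG
  have hFG : WW n F = WW n G := by
    have h1 := congrArg (line n a c) h
    have h2 : ∀ χ : MvPolynomial (Fin n) K →ₐ[K] MvPolynomial (Fin n) K,
        line n a c (χ (WW n (fun i => MvPolynomial.X i))) =
        WW n (fun i => line n a c (χ (MvPolynomial.X i))) := by
      intro χ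
      have h3 := map_WW ((line n a c).comp (χ : MvPolynomial (Fin n) K →+* MvPolynomial (Fin n) K))
        n (fun i => MvPolynomial.X i)
      exact h3
    rw [h2, h2] at h1
    exact h1
  have hinj := (algebraMap K (AlgebraicClosure K)).injective
  have hFGne : F ≠ G := by
    intro hc'
    have h1 : F i = G i := by rw [hc']
    have h2 := congrArg (Polynomial.eval 0) h1
    simp only [hF, hG] at h2
    rw [line_zero, line_zero] at h2
    exact ha (hinj h2)
  have hFj : 0 < (F j).natDegree := by
    rw [Nat.pos_iff_ne_zero]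
    intro h0
    rw [Polynomial.natDegree_eq_zero] at h0
    obtain ⟨x, hx⟩ := h0
    apply hc
    apply hinj
    rw [← line_zero n a c, ← line_one n a c]
    have hFj' : line n a c (φ (MvPolynomial.X j)) = Polynomial.C x := hx.symm
    rw [hFj', Polynomial.eval_C, Polynomial.eval_C]
  obtain ⟨iF, -, hiF⟩ := Finset.exists_max_image Finset.univ (fun i => (F i).natDegree)
    ⟨j, Finset.mem_univ _⟩
  obtain ⟨iG, -, hiG⟩ := Finset.exists_max_image Finset.univ (fun i => (G i).natDegree)
    ⟨j, Finset.mem_univ _⟩
  have hFpos : 0 < (F iF).natDegree := lt_of_lt_of_le hFj (hiF j (Finset.mem_univ _))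
  rcases le_total (G iG).natDegree (F iF).natDegree with hle | hle
  · exact hFGne (core n F G (F iF).natDegree hFpos (fun i => hiF i (Finset.mem_univ _))
      (fun i => le_trans (hiG i (Finset.mem_univ _)) hle) iF rfl hFG)
  · exact hFGne (core n G F (G iG).natDegree (lt_of_lt_of_le hFpos hle)
      (fun i => hiG i (Finset.mem_univ _))
      (fun i => le_trans (hiF i (Finset.mem_univ _)) hle) iG rfl hFG.symm).symm

end Pool.Agent.Results.MP_d61c7e_al.OnePolynomial
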